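import Pool.Agent.W685.FS.Fin

/-!
# Generators of the closed ideal of finitely strictly singular operators
-/

set_option autoImplicit false
set_option linter.unusedSectionVars false

namespace Pool.Agent.H452.FSD

open Finset Filter Topology ENNReal Pool.Agent.W685.FS

/-! ### The dominating number -/

/-- `D` is a dominating family of functions -/
def Dom (D : Set (ℕ → ℕ)) : Prop := ∀ f : ℕ → ℕ, ∃ g ∈ D, ∀ᶠ n in atTop, f n ≤ g n

/-- the dominating number -/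
noncomputable def dnum : Cardinal.{0} := sInf {κ | ∃ D : Set (ℕ → ℕ), Dom D ∧ Cardinal.mk D = κ}

lemma exists_dom : ∃ D : Set (ℕ → ℕ), Dom D ∧ Cardinal.mk D = dnum := by
  have : ({κ | ∃ D : Set (ℕ → ℕ), Dom D ∧ Cardinal.mk D = κ} : Set Cardinal.{0}).Nonempty :=
    ⟨_, Set.univ, fun f => ⟨f, Set.mem_univ _, Eventually.of_forall fun _ => le_rfl⟩, rfl⟩
  exact csInf_mem this

lemma not_dom {D : Set (ℕ → ℕ)} (hD : Cardinal.mk D < dnum) : ¬ Dom D := by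
  intro h
  have h1 : dnum ≤ Cardinal.mk D :=
    csInf_le (OrderBot.bddBelow _) ⟨D, h, rfl⟩
  exact absurd h1 (not_le.mpr hD)

lemma aleph0_lt_dnum : Cardinal.aleph0 < dnum := by
  obtain ⟨D, hD, hc⟩ := exists_dom
  rw [← hc]
  by_contra hcon
  rw [not_lt, Cardinal.le_aleph0_iff_set_countable] at hcon
  have hne : D.Nonempty := by
    obtain ⟨g, hg, -⟩ := hD (fun _ => 0)
    exact ⟨g, hg⟩
  obtain ⟨e, he⟩ := hcon.exists_eq_range hne
  obtain ⟨g, hg, h⟩ := hD (fun n => (∑ k ∈ range (n + 1), e k n) + 1)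
  rw [he] at hg
  obtain ⟨k, rfl⟩ := hg
  obtain ⟨n, hn, hkn⟩ := (h.and (eventually_ge_atTop k)).exists
  have : e k n ≤ ∑ k ∈ range (n + 1), e k n :=
    single_le_sum (f := fun k => e k n) (fun _ _ => Nat.zero_le _)
      (mem_range.mpr (Nat.lt_succ_of_le hkn))
  omega

/-- families with fewer than `𝔡` members are not dominating -/
lemma exists_undominated {ι : Type} (hι : Cardinal.mk ι < dnum) (Φ : ι → ℕ → ℕ) :
    ∃ g : ℕ → ℕ, StrictMono g ∧ ∀ i, ∃ᶠ n in atTop, Φ i n < g n := by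
  have h1 : ¬ Dom (Set.range Φ) := not_dom (Cardinal.mk_range_le.trans_lt hι)
  unfold Dom at h1
  push Not at h1
  obtain ⟨f, hf⟩ := h1
  refine ⟨fun n => ∑ i ∈ range (n + 1), (f i + 1), ?_, fun i => ?_⟩
  · refine strictMono_nat_of_lt_succ fun n => ?_
    show _ < ∑ i ∈ range (n + 1 + 1), (f i + 1)
    rw [sum_range_succ _ (n + 1)]
    omega
  · have h2 := hf (Φ i) ⟨i, rfl⟩
    refine h2.mono fun n hn => ?_
    have : f n + 1 ≤ ∑ i ∈ range (n + 1), (f i + 1) :=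
      single_le_sum (f := fun i => f i + 1) (fun _ _ => Nat.zero_le _) (by simp)
    show Φ i n < ∑ i ∈ range (n + 1), (f i + 1)
    omega

/-- the slow inverse function of `g` -/
def inv (g : ℕ → ℕ) (n : ℕ) : ℕ := Nat.findGreatest (fun k => g k ≤ n) n

lemma inv_tendsto {g : ℕ → ℕ} (hg : StrictMono g) : Tendsto (inv g) atTop atTop := by
  rw [tendsto_atTop]
  intro k
  filter_upwards [eventually_ge_atTop (g k)] with n hn
  exact Nat.le_findGreatest ((hg.id_le k).trans hn) hn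

lemma inv_apply {g : ℕ → ℕ} (hg : StrictMono g) (k : ℕ) : inv g (g k) = k := by
  refine le_antisymm ?_ (Nat.le_findGreatest (hg.id_le k) le_rfl)
  have h : g (inv g (g k)) ≤ g k := by
    refine Nat.findGreatest_spec (P := fun j => g j ≤ g k) (m := k) (hg.id_le k) le_rfl
  exact hg.le_iff_le.mp h

/-! ### The core -/

section
variable {𝕜 : Type} [RCLike 𝕜] {p q : ℝ≥0∞} [Fact (1 ≤ p)] [Fact (1 ≤ q)]

/-- the closed ideal generated by a set of operators -/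
def idealOf (𝒯 : Set (Lp' 𝕜 p →L[𝕜] Lp' 𝕜 q)) : Set (Lp' 𝕜 p →L[𝕜] Lp' 𝕜 q) :=
  closure (Submodule.span 𝕜 {S | ∃ T ∈ 𝒯, ∃ (A : Lp' 𝕜 q →L[𝕜] Lp' 𝕜 q)
    (B : Lp' 𝕜 p →L[𝕜] Lp' 𝕜 p), S = A ∘L T ∘L B} : Set (Lp' 𝕜 p →L[𝕜] Lp' 𝕜 q))

/-- the smallness condition at `(k, n)` -/
def Q (T : Lp' 𝕜 p →L[𝕜] Lp' 𝕜 q) (k n : ℕ) : Prop := ∃ d : ℕ, 1 ≤ d ∧ ∃ b : ℝ, 0 ≤ b ∧
  Shrinks T d b ∧ n * b + d * ‖T‖ ≤ n / ((k : ℝ) + 1) ^ 2

lemma Q_eventually {T : Lp' 𝕜 p →L[𝕜] Lp' 𝕜 q} (hT : IsFSS T) (k : ℕ) :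
    ∀ᶠ n in atTop, Q T k n := by
  obtain ⟨d, hd⟩ := hT (1 / (2 * ((k : ℝ) + 1) ^ 2)) (by positivity)
  have hlim : Tendsto (fun n : ℕ => (n : ℝ)) atTop atTop := tendsto_natCast_atTop_atTop
  filter_upwards [hlim.eventually_ge_atTop (2 * ((k : ℝ) + 1) ^ 2 * ((d + 1 : ℕ) * ‖T‖))]
    with n hn
  refine ⟨d + 1, by omega, 1 / (2 * ((k : ℝ) + 1) ^ 2), by positivity, ?_, ?_⟩
  · intro E hE
    exact hd E (le_trans (by norm_cast; omega) hE)
  · have hk : (0:ℝ) < ((k : ℝ) + 1) ^ 2 := by positivity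
    have h1 : ((d + 1 : ℕ) : ℝ) * ‖T‖ ≤ n / (2 * ((k : ℝ) + 1) ^ 2) := by
      rw [le_div_iff₀ (by positivity)]
      linarith
    have h2 : (n : ℝ) * (1 / (2 * ((k : ℝ) + 1) ^ 2)) + n / (2 * ((k : ℝ) + 1) ^ 2) =
        n / ((k : ℝ) + 1) ^ 2 := by field_simp; ring
    linarith

lemma tr_tendsto' (F : Fam 𝕜 p q) (hp : 0 < p.toReal) (hq : 0 < q.toReal)
    (T : Lp' 𝕜 p →L[𝕜] Lp' 𝕜 q) (m : ℕ → ℕ) (l : Filter ℕ) (hl : l ≤ atTop)
    (hm : Tendsto m atTop atTop) {c : ℝ}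
    (hκμ : ∀ n, F.κ n * F.μ n ≤ c * (m n + 2))
    (hT : ∀ᶠ n in l, Q T (m n) n)
    (A : Lp' 𝕜 q →L[𝕜] Lp' 𝕜 q) (B : Lp' 𝕜 p →L[𝕜] Lp' 𝕜 p) :
    Tendsto (fun n : ℕ => ‖F.tr hp n (A ∘L T ∘L B)‖ / n) l (𝓝 0) := by
  have hc : 0 ≤ c := by
    have h1 := hκμ 0
    have h2 : 0 ≤ F.κ 0 * F.μ 0 := mul_nonneg (F.hκ 0) (F.hμ 0)
    have h3 : (0:ℝ) < (m 0 : ℝ) + 2 := by positivity
    exact nonneg_of_mul_nonneg_left (h2.trans h1) h3
  have hlim : Tendsto (fun n : ℕ => (c * ‖A‖ * ‖B‖) * (2 / ((m n : ℝ) + 1))) l (𝓝 0) := by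
    have h1 : Tendsto (fun n : ℕ => (2:ℝ) / ((n : ℝ) + 1)) atTop (𝓝 0) :=
      Tendsto.div_atTop tendsto_const_nhds
        (tendsto_atTop_add_const_right _ _ tendsto_natCast_atTop_atTop)
    have h2 := ((h1.comp hm).mono_left hl).const_mul (c * ‖A‖ * ‖B‖)
    rwa [mul_zero] at h2
  refine squeeze_zero' (Eventually.of_forall fun n => by positivity) ?_ hlim
  filter_upwards [hT, hl (eventually_gt_atTop 0)] with n hn hn0
  obtain ⟨d, hd, b, hb, hs, hle⟩ := hn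
  have hnpos : (0:ℝ) < n := by exact_mod_cast hn0
  rw [div_le_iff₀ hnpos]
  have hU : ∀ a, ‖(B.toLinearMap ∘ₗ F.U hp n) a‖ ≤ (‖B‖ * F.κ n) * ‖a‖ := by
    intro a
    calc ‖B (F.U hp n a)‖ ≤ ‖B‖ * ‖F.U hp n a‖ := B.le_opNorm _
      _ ≤ ‖B‖ * (F.κ n * ‖a‖) := mul_le_mul_of_nonneg_left (F.U_le hp n a) (norm_nonneg _)
      _ = _ := by ring
  have hW : ∀ z, ‖(F.W n ∘ₗ A.toLinearMap) z‖ ≤ (F.μ n * ‖A‖) * ‖z‖ := by
    intro z
    calc ‖F.W n (A z)‖ ≤ F.μ n * ‖A z‖ := F.W_le hq n _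
      _ ≤ F.μ n * (‖A‖ * ‖z‖) := mul_le_mul_of_nonneg_left (A.le_opNorm z) (F.hμ n)
      _ = _ := by ring
  have h := trace_bound T hd hb hs (B.toLinearMap ∘ₗ F.U hp n)
    (mul_nonneg (norm_nonneg _) (F.hκ n)) hU (F.W n ∘ₗ A.toLinearMap)
    (mul_nonneg (F.hμ n) (norm_nonneg _)) hW
  have heq : (F.W n ∘ₗ A.toLinearMap) ∘ₗ T.toLinearMap ∘ₗ (B.toLinearMap ∘ₗ F.U hp n) =
      F.W n ∘ₗ (A ∘L T ∘L B).toLinearMap ∘ₗ F.U hp n := rfl
  rw [heq] at h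
  refine h.trans ?_
  have hm1 : (0:ℝ) < (m n : ℝ) + 1 := by positivity
  calc ‖B‖ * F.κ n * (F.μ n * ‖A‖) * (n * b + d * ‖T‖)
      = (‖A‖ * ‖B‖) * ((F.κ n * F.μ n) * (n * b + d * ‖T‖)) := by ring
    _ ≤ (‖A‖ * ‖B‖) * ((c * (m n + 2)) * (n / ((m n : ℝ) + 1) ^ 2)) := by
        refine mul_le_mul_of_nonneg_left ?_ (by positivity)
        exact mul_le_mul (hκμ n) hle (by positivity) (by positivity)
    _ ≤ (‖A‖ * ‖B‖) * ((c * (2 * (m n + 1))) * (n / ((m n : ℝ) + 1) ^ 2)) := by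
        have : (0:ℝ) ≤ m n := Nat.cast_nonneg _
        gcongr
        linarith
    _ = _ := by field_simp

/-- the block operator is not in the ideal -/
lemma R_notMem (F : Fam 𝕜 p q) (hp1 : 1 ≤ p.toReal) (hpq : p.toReal < q.toReal)
    (𝒯 : Set (Lp' 𝕜 p →L[𝕜] Lp' 𝕜 q)) (m : ℕ → ℕ) (hm : Tendsto m atTop atTop) {c : ℝ}
    (hκμ : ∀ n, F.κ n * F.μ n ≤ c * (m n + 2)) (hp0 : 0 < p.toReal)
    (hT : ∀ s : Finset 𝒯, ∃ᶠ n in atTop, ∀ T ∈ s, Q T.1 (m n) n) :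
    F.R hp0 hpq.le ∉ idealOf 𝒯 := by
  intro hR
  have hq0 : 0 < q.toReal := by linarith
  classical
  obtain ⟨S, hS, hdist⟩ := Metric.mem_closure_iff.mp hR (1 / 2) (by norm_num)
  -- the traces of `S` tend to zero along a suitable filter
  have hS0 : ∃ s : Finset 𝒯, ∀ l : Filter ℕ, l ≤ atTop → (∀ᶠ n in l, ∀ T ∈ s, Q T.1 (m n) n) →
      Tendsto (fun n : ℕ => ‖F.tr hp0 n S‖ / n) l (𝓝 0) := by
    refine Submodule.span_induction (p := fun S _ =>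
      ∃ s : Finset 𝒯, ∀ l : Filter ℕ, l ≤ atTop → (∀ᶠ n in l, ∀ T ∈ s, Q T.1 (m n) n) →
      Tendsto (fun n : ℕ => ‖F.tr hp0 n S‖ / n) l (𝓝 0)) ?_ ?_ ?_ ?_ hS
    · rintro _ ⟨T, hT, A, B, rfl⟩
      refine ⟨{⟨T, hT⟩}, fun l hl h => ?_⟩
      refine tr_tendsto' F hp0 hq0 T m l hl hm hκμ ?_ A B
      exact h.mono fun n hn => hn ⟨T, hT⟩ (mem_singleton_self _)
    · refine ⟨∅, fun l _ _ => ?_⟩
      have : ∀ n : ℕ, ‖F.tr hp0 n (0 : Lp' 𝕜 p →L[𝕜] Lp' 𝕜 q)‖ / n = 0 := by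
        intro n
        have h := F.tr_smul hp0 n 0 0
        rw [zero_smul, zero_mul] at h
        rw [h]; simp
      simp only [this]; exact tendsto_const_nhds
    · rintro S1 S2 _ _ ⟨s1, h1⟩ ⟨s2, h2⟩
      refine ⟨s1 ∪ s2, fun l hl h => ?_⟩
      have h3 := (h1 l hl (h.mono fun n hn T hT => hn T (mem_union_left _ hT))).add
        (h2 l hl (h.mono fun n hn T hT => hn T (mem_union_right _ hT)))
      rw [add_zero] at h3
      refine squeeze_zero (fun n => by positivity) (fun n => ?_) h3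
      rw [F.tr_add, ← add_div]
      exact div_le_div_of_nonneg_right (norm_add_le _ _) (Nat.cast_nonneg _)
    · rintro c' S1 _ ⟨s1, h1⟩
      refine ⟨s1, fun l hl h => ?_⟩
      have h3 := (h1 l hl h).const_mul ‖c'‖
      rw [mul_zero] at h3
      refine h3.congr fun n => ?_
      rw [F.tr_smul, norm_mul, mul_div_assoc]
  obtain ⟨s, hs⟩ := hS0
  set l : Filter ℕ := atTop ⊓ 𝓟 {n | ∀ T ∈ s, Q T.1 (m n) n} with hl
  have hne : l.NeBot := by
    rw [hl, inf_neBot_iff_frequently_left]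
    intro P hP
    have := (hT s).and_eventually hP
    exact frequently_principal.mpr (by
      obtain ⟨n, hn1, hn2⟩ := this.exists
      exact ⟨n, hn1, hn2⟩)
  have hS1 := hs l inf_le_left (eventually_inf_principal.mpr (Eventually.of_forall fun n hn => hn))
  obtain ⟨n, hn, hn0⟩ := ((hS1.eventually (gt_mem_nhds (show (0:ℝ) < 1 / 2 by norm_num))).and
    (inf_le_left (a := atTop) (b := 𝓟 {n | ∀ T ∈ s, Q T.1 (m n) n})
      (eventually_gt_atTop 0))).exists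
  have hnpos : (0:ℝ) < n := by exact_mod_cast hn0
  rw [div_lt_iff₀ hnpos] at hn
  have h1 : F.tr hp0 n (F.R hp0 hpq.le) = F.tr hp0 n (F.R hp0 hpq.le - S) + F.tr hp0 n S := by
    rw [← F.tr_add, sub_add_cancel]
  rw [F.tr_R] at h1
  have h2 := F.tr_le hp0 hq0 n (F.R hp0 hpq.le - S)
  rw [dist_eq_norm] at hdist
  have h3 : (n : ℝ) ≤ ‖F.tr hp0 n (F.R hp0 hpq.le - S)‖ + ‖F.tr hp0 n S‖ := by
    have := norm_add_le (F.tr hp0 n (F.R hp0 hpq.le - S)) (F.tr hp0 n S)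
    rw [← h1] at this
    simpa using this
  nlinarith

/-- **Core.** For every set of fewer than `𝔡` finitely strictly singular operators there is a
finitely strictly singular operator which is not in the closed ideal generated by it. -/
theorem core (hp : 1 < p) (hpq : p < q) (hq : q < ⊤) (𝒯 : Set (Lp' 𝕜 p →L[𝕜] Lp' 𝕜 q))
    (h𝒯 : ∀ T ∈ 𝒯, IsFSS T) (hcard : Cardinal.mk 𝒯 < dnum) :
    ∃ R : Lp' 𝕜 p →L[𝕜] Lp' 𝕜 q, IsFSS R ∧ R ∉ idealOf 𝒯 := by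
  have hp1 : 1 < p.toReal := by
    have := (ENNReal.toReal_lt_toReal one_ne_top (hpq.trans hq).ne).mpr hp
    simpa using this
  have hpq' : p.toReal < q.toReal := (ENNReal.toReal_lt_toReal (hpq.trans hq).ne hq.ne).mpr hpq
  have hq1 : 1 < q.toReal := hp1.trans hpq'
  have hp0 : 0 < p.toReal := by linarith
  -- the thresholds of the finite subsets
  have hN : ∀ s : Finset 𝒯, ∀ k : ℕ, ∃ N : ℕ, ∀ n, N ≤ n → ∀ T ∈ s, Q T.1 k n := by
    intro s k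
    have : ∀ᶠ n in atTop, ∀ T ∈ s, Q T.1 k n :=
      (Filter.eventually_all_finset s).mpr fun T _ => Q_eventually (h𝒯 T.1 T.2) k
    exact eventually_atTop.mp this
  choose N hN using hN
  have hfin : Cardinal.mk (Finset 𝒯) < dnum := by
    rcases finite_or_infinite 𝒯 with h | h
    · have : Finite (Finset 𝒯) := inferInstance
      exact (Cardinal.lt_aleph0_of_finite _).trans aleph0_lt_dnum
    · rw [Cardinal.mk_finset_of_infinite]; exact hcard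
  obtain ⟨g, hg, hgN⟩ := exists_undominated hfin N
  set m := inv g with hmdef
  have hm : Tendsto m atTop atTop := inv_tendsto hg
  have hT : ∀ s : Finset 𝒯, ∃ᶠ n in atTop, ∀ T ∈ s, Q T.1 (m n) n := by
    intro s
    have h1 : ∃ᶠ k in atTop, ∀ T ∈ s, Q T.1 (m (g k)) (g k) := by
      refine (hgN s).mono fun k hk => ?_
      rw [hmdef, inv_apply hg]
      exact hN s k _ hk.le
    exact hg.tendsto_atTop.frequently h1
  have hpc := Real.HolderConjugate.conjExponent hp1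
  have hqc := Real.HolderConjugate.conjExponent hq1
  rcases le_or_gt 2 p.toReal with h2 | h2
  · refine ⟨(famA h2 hpq' hpc hqc m hm).R hp0 hpq'.le, fun ε hε =>
      Fam.shrinks_R _ hp1.le hp0 hpq' hε, ?_⟩
    refine R_notMem (famA h2 hpq' hpc hqc m hm) hp1.le hpq' 𝒯 m hm (c := cB p.toReal) ?_ hp0 hT
    intro n
    refine mul_le_mul_of_nonneg_left (dl_rpow_neg_le ?_ ?_) (zero_le_one.trans (one_le_cB _))
    · have h1 := hqc.inv_add_inv_eq_one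
      have h3 : (q.toReal)⁻¹ ≤ 2⁻¹ := inv_anti₀ (by norm_num) (by linarith)
      rw [one_div, one_div]
      norm_num at h3 ⊢; linarith
    · have h1 := hqc.inv_add_inv_eq_one
      have h3 : 0 < (q.toReal)⁻¹ := inv_pos.mpr hqc.pos
      rw [one_div, one_div]
      norm_num; linarith
  · refine ⟨(famB h2 hpc hqc m hm).R hp0 hpq'.le, fun ε hε =>
      Fam.shrinks_R _ hp1.le hp0 hpq' hε, ?_⟩
    refine R_notMem (famB h2 hpc hqc m hm) hp1.le hpq' 𝒯 m hm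
      (c := cB (q.toReal.conjExponent)) ?_ hp0 hT
    intro n
    show dl (m n) ^ (1 / 2 - 1 / p.toReal) * cB (q.toReal.conjExponent) ≤ _
    rw [mul_comm]
    refine mul_le_mul_of_nonneg_left (dl_rpow_neg_le ?_ ?_) (zero_le_one.trans (one_le_cB _))
    · have h3 : 2⁻¹ ≤ (p.toReal)⁻¹ := inv_anti₀ hpc.pos h2.le
      rw [one_div, one_div]
      norm_num at h3 ⊢; linarith
    · have h3 : (p.toReal)⁻¹ ≤ 1 := inv_le_one_of_one_le₀ hp1.le
      rw [one_div, one_div]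
      norm_num; linarith

end

end Pool.Agent.H452.FSD
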