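import Pool.Agent.H452.FSD.Core

/-!
# The finitely strictly singular operators form a closed ideal
-/

set_option autoImplicit false
set_option linter.unusedSectionVars false

namespace Pool.Agent.H452.FSD

open Filter Topology Pool.Agent.W685.FS

section
variable {𝕜 : Type} [RCLike 𝕜] {X Y : Type} [NormedAddCommGroup X] [NormedSpace 𝕜 X]
  [NormedAddCommGroup Y] [NormedSpace 𝕜 Y]

/-- finitely strictly singular -/
def FSS (T : X →L[𝕜] Y) : Prop := ∀ ε : ℝ, 0 < ε → ∃ n : ℕ, Shrinks T n ε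

lemma rank_inf_ker (E : Submodule 𝕜 X) (f : X →ₗ[𝕜] 𝕜) {n : ℕ}
    (hE : ((n + 1 : ℕ) : Cardinal) ≤ Module.rank 𝕜 E) :
    (n : Cardinal) ≤ Module.rank 𝕜 (E ⊓ LinearMap.ker f : Submodule 𝕜 X) := by
  have h1 := LinearMap.rank_range_add_rank_ker (f ∘ₗ E.subtype)
  have h2 : Module.rank 𝕜 (LinearMap.range (f ∘ₗ E.subtype)) ≤ 1 := by
    refine (Submodule.rank_le _).trans ?_
    rw [Module.rank_self]
  have h3 : Module.rank 𝕜 (LinearMap.ker (f ∘ₗ E.subtype)) ≤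
      Module.rank 𝕜 (E ⊓ LinearMap.ker f : Submodule 𝕜 X) := by
    have h4 : (LinearMap.ker (f ∘ₗ E.subtype)).map E.subtype ≤
        (E ⊓ LinearMap.ker f : Submodule 𝕜 X) := by
      rintro _ ⟨x, hx, rfl⟩
      exact ⟨x.2, hx⟩
    refine le_trans (le_of_eq ?_) (Submodule.rank_mono h4)
    exact (LinearEquiv.rank_eq (Submodule.equivMapOfInjective _ E.injective_subtype _))
  have h5 : ((n + 1 : ℕ) : Cardinal) ≤
      Module.rank 𝕜 (E ⊓ LinearMap.ker f : Submodule 𝕜 X) + 1 := by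
    rw [← h1] at hE
    refine hE.trans ?_
    rw [add_comm]
    exact add_le_add h3 h2
  rw [Nat.cast_succ] at h5
  exact Cardinal.add_one_le_add_one_iff.mp h5

/-- a finitely strictly singular operator is small on large subspaces -/
lemma exists_subspace {T : X →L[𝕜] Y} (hT : FSS T) (m : ℕ) : ∀ ε : ℝ, 0 < ε →
    ∃ N : ℕ, ∀ E : Submodule 𝕜 X, (N : Cardinal) ≤ Module.rank 𝕜 E →
      ∃ F : Submodule 𝕜 X, F ≤ E ∧ (m : Cardinal) ≤ Module.rank 𝕜 F ∧
        ∀ x ∈ F, ‖T x‖ ≤ ε * ‖x‖ := by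
  induction m with
  | zero =>
    intro ε hε
    refine ⟨0, fun E _ => ⟨⊥, bot_le, by simp, ?_⟩⟩
    intro x hx
    rw [Submodule.mem_bot] at hx
    subst hx; simp
  | succ m ih =>
    intro ε hε
    obtain ⟨N1, hN1⟩ := ih (ε / 4) (by positivity)
    obtain ⟨N2, hN2⟩ := hT (ε / 2) (by positivity)
    refine ⟨max (N1 + 1) N2, fun E hE => ?_⟩
    obtain ⟨x1, hx1E, hx10, hx1T⟩ := hN2 E (le_trans (by exact_mod_cast le_max_right _ _) hE)
    obtain ⟨f, hf1, hf2⟩ := exists_dual_vector 𝕜 x1 (norm_ne_zero_iff.mpr hx10)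
    have hr := rank_inf_ker E f.toLinearMap (n := N1)
      (le_trans (by exact_mod_cast le_max_left _ _) hE)
    obtain ⟨F', hF'E, hF'm, hF'T⟩ := hN1 _ hr
    have hfx1 : f x1 ≠ 0 := by
      rw [hf2]
      exact_mod_cast norm_ne_zero_iff.mpr hx10
    refine ⟨F' ⊔ Submodule.span 𝕜 {x1}, sup_le (hF'E.trans inf_le_left) ?_, ?_, ?_⟩
    · rw [Submodule.span_singleton_le_iff_mem]; exact hx1E
    · set G := F' ⊔ Submodule.span 𝕜 {x1} with hG
      have h1 := LinearMap.rank_range_add_rank_ker (f.toLinearMap ∘ₗ G.subtype)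
      have h2 : (1 : Cardinal) ≤ Module.rank 𝕜 (LinearMap.range (f.toLinearMap ∘ₗ G.subtype)) := by
        rw [Cardinal.one_le_iff_ne_zero, Ne, rank_zero_iff_forall_zero]
        intro hcon
        have hx1G : x1 ∈ G := Submodule.mem_sup_right (Submodule.mem_span_singleton_self x1)
        have := hcon ⟨f x1, ⟨⟨x1, hx1G⟩, rfl⟩⟩
        exact hfx1 (by simpa using congrArg Subtype.val this)
      have h3 : Module.rank 𝕜 F' ≤
          Module.rank 𝕜 (LinearMap.ker (f.toLinearMap ∘ₗ G.subtype)) := by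
        have hle : ∀ x : F', (⟨x.1, Submodule.mem_sup_left x.2⟩ : G) ∈
            LinearMap.ker (f.toLinearMap ∘ₗ G.subtype) := fun x => (hF'E x.2).2
        let ι : F' →ₗ[𝕜] LinearMap.ker (f.toLinearMap ∘ₗ G.subtype) :=
          { toFun := fun x => ⟨⟨x.1, Submodule.mem_sup_left x.2⟩, hle x⟩
            map_add' := fun x y => rfl
            map_smul' := fun c x => rfl }
        refine LinearMap.rank_le_of_injective ι ?_
        intro x y hxy
        have := congrArg (fun z => z.1.1) hxy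
        exact Subtype.ext this
      rw [← h1, Nat.cast_succ, add_comm]
      exact add_le_add h2 (hF'm.trans h3)
    · intro x hx
      obtain ⟨y, hy, z, hz, rfl⟩ := Submodule.mem_sup.mp hx
      obtain ⟨a, rfl⟩ := Submodule.mem_span_singleton.mp hz
      have hfy : f y = 0 := (hF'E hy).2
      have h1 : ‖a‖ * ‖x1‖ ≤ ‖y + a • x1‖ := by
        have h2 : f (y + a • x1) = a * (‖x1‖ : 𝕜) := by
          rw [map_add, map_smul, hfy, zero_add, hf2, smul_eq_mul]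
        have h3 := f.le_opNorm (y + a • x1)
        rw [hf1, one_mul, h2, norm_mul] at h3
        simpa using h3
      have h4 : ‖y‖ ≤ 2 * ‖y + a • x1‖ := by
        calc ‖y‖ = ‖(y + a • x1) - a • x1‖ := by rw [add_sub_cancel_right]
          _ ≤ ‖y + a • x1‖ + ‖a • x1‖ := norm_sub_le _ _
          _ = ‖y + a • x1‖ + ‖a‖ * ‖x1‖ := by rw [norm_smul]
          _ ≤ _ := by linarith
      have h5 := hF'T y hy
      calc ‖T (y + a • x1)‖ = ‖T y + a • T x1‖ := by rw [map_add, map_smul]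
        _ ≤ ‖T y‖ + ‖a‖ * ‖T x1‖ := by
            refine (norm_add_le _ _).trans ?_
            rw [norm_smul]
        _ ≤ ε / 4 * (2 * ‖y + a • x1‖) + ‖a‖ * (ε / 2 * ‖x1‖) := by
            refine add_le_add (h5.trans ?_) ?_
            · exact mul_le_mul_of_nonneg_left h4 (by positivity)
            · exact mul_le_mul_of_nonneg_left hx1T (norm_nonneg _)
        _ = ε / 2 * ‖y + a • x1‖ + ε / 2 * (‖a‖ * ‖x1‖) := by ring
        _ ≤ ε / 2 * ‖y + a • x1‖ + ε / 2 * ‖y + a • x1‖ := by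
            have := mul_le_mul_of_nonneg_left h1 (show 0 ≤ ε / 2 by positivity)
            linarith
        _ = _ := by ring

lemma FSS.add {S T : X →L[𝕜] Y} (hS : FSS S) (hT : FSS T) : FSS (S + T) := by
  intro ε hε
  obtain ⟨m, hm⟩ := hT (ε / 2) (by positivity)
  obtain ⟨N, hN⟩ := exists_subspace hS m (ε / 2) (by positivity)
  refine ⟨N, fun E hE => ?_⟩
  obtain ⟨F, hFE, hFm, hFS⟩ := hN E hE
  obtain ⟨x, hx, hx0, hxT⟩ := hm F hFm
  refine ⟨x, hFE hx, hx0, ?_⟩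
  have := hFS x hx
  calc ‖(S + T) x‖ ≤ ‖S x‖ + ‖T x‖ := norm_add_le _ _
    _ ≤ ε / 2 * ‖x‖ + ε / 2 * ‖x‖ := add_le_add this hxT
    _ = _ := by ring

lemma FSS.comp {S : X →L[𝕜] Y} (hS : FSS S) (A : Y →L[𝕜] Y) (B : X →L[𝕜] X) :
    FSS (A ∘L S ∘L B) := by
  intro ε hε
  have hpos : 0 < ‖A‖ * ‖B‖ + 1 := by positivity
  obtain ⟨n, hn⟩ := hS (ε / (‖A‖ * ‖B‖ + 1)) (by positivity)
  refine ⟨n + 1, fun E hE => ?_⟩
  by_cases hinj : ∃ x ∈ E, x ≠ 0 ∧ B x = 0
  · obtain ⟨x, hx, hx0, hBx⟩ := hinj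
    refine ⟨x, hx, hx0, ?_⟩
    have : (A ∘L S ∘L B) x = 0 := by simp [hBx]
    rw [this, norm_zero]; positivity
  · push Not at hinj
    have hinj' : Function.Injective (B.toLinearMap.domRestrict E) := by
      rw [← LinearMap.ker_eq_bot, LinearMap.ker_eq_bot']
      rintro ⟨v, hv⟩ hv2
      by_contra h0
      exact hinj v hv (fun h => h0 (by ext1; exact h)) hv2
    have hrank : (n : Cardinal) ≤ Module.rank 𝕜 (E.map B.toLinearMap) := by
      have h1 := (LinearEquiv.ofInjective _ hinj').rank_eq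
      rw [LinearMap.range_domRestrict] at h1
      rw [← h1]
      exact le_trans (by exact_mod_cast Nat.le_succ n) hE
    obtain ⟨y, hy, hy0, hy1⟩ := hn _ hrank
    obtain ⟨x, hx, rfl⟩ := hy
    refine ⟨x, hx, fun h => hy0 (by rw [h, map_zero]), ?_⟩
    have h2 : ‖B x‖ ≤ ‖B‖ * ‖x‖ := B.le_opNorm x
    calc ‖(A ∘L S ∘L B) x‖ = ‖A (S (B x))‖ := rfl
      _ ≤ ‖A‖ * ‖S (B x)‖ := A.le_opNorm _
      _ ≤ ‖A‖ * (ε / (‖A‖ * ‖B‖ + 1) * ‖B x‖) :=
          mul_le_mul_of_nonneg_left hy1 (norm_nonneg _)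
      _ ≤ ‖A‖ * (ε / (‖A‖ * ‖B‖ + 1) * (‖B‖ * ‖x‖)) := by gcongr
      _ = ε * ((‖A‖ * ‖B‖) / (‖A‖ * ‖B‖ + 1)) * ‖x‖ := by ring
      _ ≤ ε * 1 * ‖x‖ := by
          have : (‖A‖ * ‖B‖) / (‖A‖ * ‖B‖ + 1) ≤ 1 := by
            rw [div_le_one hpos]; linarith
          gcongr
      _ = _ := by ring

lemma FSS.zero : FSS (0 : X →L[𝕜] Y) := by
  intro ε hε
  refine ⟨1, fun E hE => ?_⟩
  have h1 : Module.rank 𝕜 E ≠ 0 := by
    intro h
    rw [h] at hE
    simp at hE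
  rw [Ne, rank_zero_iff_forall_zero] at h1
  push Not at h1
  obtain ⟨x, hx⟩ := h1
  refine ⟨x.1, x.2, fun h => hx (Subtype.ext h), ?_⟩
  simp only [ContinuousLinearMap.zero_apply, norm_zero]
  positivity

lemma FSS.smul (c : 𝕜) {S : X →L[𝕜] Y} (hS : FSS S) : FSS (c • S) := by
  have := hS.comp (c • ContinuousLinearMap.id 𝕜 Y) (ContinuousLinearMap.id 𝕜 X)
  have h2 : (c • ContinuousLinearMap.id 𝕜 Y) ∘L S ∘L (ContinuousLinearMap.id 𝕜 X) = c • S := by
    ext x; simp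
  rwa [h2] at this

lemma isClosed_FSS : IsClosed {S : X →L[𝕜] Y | FSS S} := by
  refine isClosed_of_closure_subset fun T hT => ?_
  intro ε hε
  obtain ⟨S, hS, hdist⟩ := Metric.mem_closure_iff.mp hT (ε / 2) (by positivity)
  obtain ⟨n, hn⟩ := hS (ε / 2) (by positivity)
  refine ⟨n, fun E hE => ?_⟩
  obtain ⟨x, hx, hx0, hx1⟩ := hn E hE
  refine ⟨x, hx, hx0, ?_⟩
  rw [dist_eq_norm] at hdist
  have h1 : ‖(T - S) x‖ ≤ ‖T - S‖ * ‖x‖ := (T - S).le_opNorm x
  have h2 : ‖T - S‖ * ‖x‖ ≤ ε / 2 * ‖x‖ := mul_le_mul_of_nonneg_right hdist.le (norm_nonneg _)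
  calc ‖T x‖ = ‖(T - S) x + S x‖ := by simp
    _ ≤ ‖(T - S) x‖ + ‖S x‖ := norm_add_le _ _
    _ ≤ ε / 2 * ‖x‖ + ε / 2 * ‖x‖ := add_le_add (h1.trans h2) hx1
    _ = _ := by ring

end

end Pool.Agent.H452.FSD
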